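import Pool.Agent.V11212.HC.SS

/-!
# Degeneration of the cubic dimension spectral sequence at a page depending only on the scale
-/

set_option autoImplicit false

namespace Pool.Agent.Results.MP_e813cc_gt.Degeneration

/-- Binary words of length `n`: the vertices of the hypercube graph `Q_n`. -/
abbrev Word (n : ℕ) : Type := Fin n → Bool

/-- `σ` is a simplex of `X^{n, r}`: a nonempty set of words pairwise at Hamming distance
at most `r`. -/
def IsSimplex {n : ℕ} (r : ℕ) (σ : Finset (Word n)) : Prop :=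
  σ.Nonempty ∧ ∀ x ∈ σ, ∀ y ∈ σ, hammingDist x y ≤ r

/-- The cubic dimension: the number of coordinates on which the vertices of `σ` do not all
agree. -/
def cubicDim {n : ℕ} (σ : Finset (Word n)) : ℕ :=
  (Finset.univ.filter (fun j : Fin n => ∃ x ∈ σ, ∃ y ∈ σ, x j ≠ y j)).card

/-- Chains with coefficients in `k`: a chain is the family of its coefficients. -/
abbrev Chain (n : ℕ) (k : Type) : Type := Finset (Word n) → k

/-- The simplicial boundary, for the total order of the vertices given by `o`.  A simplex with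
vertices `v_0 < ... < v_d` is sent to the alternating sum of its faces (vertices have boundary
`0`).  So the coefficient at a nonempty `τ` of the boundary of `c` is the sum over the vertices
`v ∉ τ` of `(-1) ^ i` times the coefficient of `c` at `τ ∪ {v}`, where `v` is the `i`-th vertex
(counting from `0`) of `τ ∪ {v}`. -/
def bdry {n : ℕ} {k : Type} [Field k] (o : Word n → ℕ) (c : Chain n k) : Chain n k :=
  fun τ => if τ = ∅ then 0 else
    ∑ v, if v ∈ τ then 0 else (-1) ^ (τ.filter (fun u => o u < o v)).card * c (insert v τ)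

/-- `c` is a `d`-chain of `X^{n, r}_p`, the subcomplex of the simplices of `X^{n, r}` of cubic
dimension at most `p`. -/
def InC {n : ℕ} {k : Type} [Field k] (r : ℕ) (p d : ℤ) (c : Chain n k) : Prop :=
  ∀ σ, c σ ≠ 0 → IsSimplex r σ ∧ (σ.card : ℤ) = d + 1 ∧ (cubicDim σ : ℤ) ≤ p

/-- `x ∈ Z^i_{p, q}`: `x` is a `(p + q)`-chain of `X_p` whose boundary is a chain of
`X_{p - i}`. -/
def InZ {n : ℕ} {k : Type} [Field k] (r : ℕ) (o : Word n → ℕ) (i p q : ℤ) (x : Chain n k) :
    Prop :=
  InC r p (p + q) x ∧ InC r (p - i) (p + q - 1) (bdry o x)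

/-- `x ∈ B^i_{p, q} = Z^{i-1}_{p-1, q+1} + ∂ Z^{i-1}_{p+i-1, q-i+2}`, so that the terms of the
spectral sequence are `E^i_{p, q} = Z^i_{p, q} / B^i_{p, q}`. -/
def InB {n : ℕ} {k : Type} [Field k] (r : ℕ) (o : Word n → ℕ) (i p q : ℤ) (x : Chain n k) :
    Prop :=
  ∃ a b : Chain n k, InZ r o (i - 1) (p - 1) (q + 1) a ∧
    InZ r o (i - 1) (p + i - 1) (q - i + 2) b ∧ ∀ σ, x σ = a σ + bdry o b σ

/-- The differential `d^i : E^i_{p, q} → E^i_{p - i, q + i - 1}`, which sends the class of `x`
to the class of the boundary of `x`, is zero. -/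
def DiffZero (n r : ℕ) (k : Type) [Field k] (o : Word n → ℕ) (i p q : ℤ) : Prop :=
  ∀ x : Chain n k, InZ r o i p q x → InB r o i (p - i) (q + i - 1) (bdry o x)

/-- The page `i(r) = r * (r * (r + 2) * (2 * r + 1) ^ r + 1) ^ r + 1`. -/
def page (r : ℕ) : ℕ := r * (r * (r + 2) * (2 * r + 1) ^ r + 1) ^ r + 1

theorem page_eq (r : ℕ) : page r = V11212.HC.bnd r + 1 := by
  rw [page, V11212.HC.bnd, mul_assoc]

/-- **Main result.** With the function `i(r) = page r` of the scale alone, for every `r`,
every `n` and every field, the spectral sequence of `X^{n, r}` degenerates at page `i(r)`: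
all differentials `d^j` with `j ≥ i(r)` vanish. -/
theorem result (k : Type) [Field k] (r n : ℕ) (o : Word n → ℕ) (ho : Function.Injective o)
    (j p q : ℤ) (hj : (page r : ℤ) ≤ j) : DiffZero n r k o j p q := by
  rw [page_eq] at hj
  push_cast at hj
  rintro x ⟨hx1, hx2⟩
  have hzero : bdry o (0 : Chain n k) = 0 := (V11212.HC.bdry (k := k) o).map_zero
  have hInC0 : ∀ p d : ℤ, InC r p d (0 : Chain n k) := fun p d σ h => absurd rfl h
  by_cases hp : (V11212.HC.bnd r : ℤ) < p
  · have hx3 : InC r (p - 1) (p + q - 1) (bdry o x) := by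
      intro σ h
      obtain ⟨h1, h2, h3⟩ := hx2 σ h
      exact ⟨h1, h2, by omega⟩
    obtain ⟨y, hy, hxy⟩ := V11212.HC.key (n := n) (r := r) (k := k) ho hp (x := x) hx1 hx3
    have e : bdry o (fun σ => x σ - bdry o y σ) = bdry o x := by
      have h1 := (V11212.HC.bdry (k := k) o).map_sub x (V11212.HC.bdry o y)
      rw [V11212.HC.bdry_bdry ho, sub_zero] at h1
      exact h1
    refine ⟨0, fun σ => x σ - bdry o y σ, ⟨hInC0 _ _, ?_⟩, ⟨?_, ?_⟩, fun σ => ?_⟩
    · rw [hzero]; exact hInC0 _ _
    · rw [show p - j + j - 1 = p - 1 by ring, show p - 1 + (q + j - 1 - j + 2) = p + q by ring]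
      exact hxy
    · rw [e, show p - j + j - 1 - (j - 1) = p - j by ring,
        show p - j + j - 1 + (q + j - 1 - j + 2) - 1 = p + q - 1 by ring]
      exact hx2
    · rw [e]; simp
  · have h0 : bdry o x = 0 := V11212.HC.FC_neg (n := n) (r := r) (k := k)
      (show p - j < 0 by omega) hx2
    refine ⟨0, 0, ⟨hInC0 _ _, ?_⟩, ⟨hInC0 _ _, ?_⟩, fun σ => ?_⟩
    · rw [hzero]; exact hInC0 _ _
    · rw [hzero]; exact hInC0 _ _
    · rw [h0, hzero]; simp

end Pool.Agent.Results.MP_e813cc_gt.Degeneration
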